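import Pool.Agent.H24.FD.P4

set_option autoImplicit false

open Finset Pool.K2 Pool.FD MeasureTheory

namespace Pool.Agent.H24.FD

theorem bct : BCTStmt := by
  intro p w J y hp
  classical
  unfold bad tt
  rw [Nat.add_sub_cancel]
  apply Nat.cast_le.2
  rw [← Nat.card_Ico]
  apply card_le_card
  intro m hm
  obtain ⟨-, h1, h2, -⟩ := mem_filter.1 hm
  rw [mem_Ico]
  constructor
  · exact Nat.clog_le_of_le_pow h1
  · exact (Nat.lt_clog_iff_pow_lt (by omega)).2 h2

end Pool.Agent.H24.FD
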