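import Mathlib
import Pool.Agent.H24.FD.P5
import Pool.Agent.H78.FD.GLZ
import Pool.Agent.H31.FD.BCT

/-!
# MP_1f2761, k = 2, row BET: from good windows to `β`
-/

set_option autoImplicit false

open Finset Pool.K2 Pool.FD MeasureTheory

namespace Pool.Agent.H24.FD

/-- trivial bound for the number of levels of a window -/
lemma bet_two (p W J : ℕ) (y : ℕ × ℕ) (hp : 2 ≤ p) (hW : 1 ≤ W) : (bad p W J y : ℝ) ≤ 2 * W := by
  have h1 := bct p W J y hp
  obtain ⟨_, _, _, _, _, ⟨h, _⟩, _⟩ := glz p W (J + W) hp (by omega) 0 0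
  have h2 : p ^ tt p W (J + W) ≤ p * 2 ^ W := by exact_mod_cast h
  have h3 : tt p W (J + W) ≤ W + 1 := by
    by_contra hc
    push_neg at hc
    have h4 : p ^ (W + 1 + 1) ≤ p ^ tt p W (J + W) := Nat.pow_le_pow_right (by omega) (by omega)
    have h5 : p ^ (W + 1 + 1) = p * (p ^ (W + 1)) := by ring
    have h6 : p * p ^ (W + 1) ≤ p * 2 ^ W := by
      rw [← h5]
      exact h4.trans h2
    have h7 : p ^ (W + 1) ≤ 2 ^ W := Nat.le_of_mul_le_mul_left h6 (by omega)
    have h8 : 2 ^ (W + 1) ≤ p ^ (W + 1) := Nat.pow_le_pow_left hp _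
    have h9 : 2 ^ W < 2 ^ (W + 1) := Nat.pow_lt_pow_right (by norm_num) (by omega)
    omega
  have h4 : (tt p W (J + W) : ℝ) ≤ 2 * W := by
    have : tt p W (J + W) ≤ 2 * W := by omega
    exact_mod_cast this
  linarith

open Classical in
/-- **BET**. -/
theorem bet (hE : EQBStmt) : BETStmt := by
  intro q p l T W e om Gd hp he hd hM hl hom hW hG hK
  have hW1 : 1 ≤ W := by
    rw [hW]
    have : 1 ≤ l * l := Nat.mul_pos hl hl
    nlinarith
  refine ⟨fun J => if Gd J then (dens q p + e / 2) * W else 2 * W, ?_, ?_⟩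
  · intro J x
    dsimp only
    split_ifs with h
    · exact hG J h x
    · obtain ⟨hc, hm, _⟩ := hE q l l eb (om (J + W)) hM (hom (J + W))
      calc EQ q l l eb (om (J + W)) (J + W) (3200 + T) (fun y => (bad p W J y : ℝ)) x
          ≤ EQ q l l eb (om (J + W)) (J + W) (3200 + T) (fun _ => (2 * W : ℝ)) x :=
            hm _ _ _ _ x (fun y => bet_two p W J y hp hW1)
        _ = 2 * W := hc _ _ _ x
  · obtain ⟨K₀, hK₀⟩ := hK
    refine ⟨K₀, fun K hKK J => ?_⟩
    have h1 := hK₀ K hKK J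
    have h2 : ∀ i ∈ range K, (if Gd (J + i * W) then (dens q p + e / 2) * W else 2 * W : ℝ) ≤
        (dens q p + e / 2) * W + 2 * W * (if ¬ Gd (J + i * W) then 1 else 0) := by
      intro i _
      have h0 : (0 : ℝ) ≤ (dens q p + e / 2) * W := by positivity
      split_ifs <;> simp_all
    calc ∑ i ∈ range K, (if Gd (J + i * W) then (dens q p + e / 2) * W else 2 * W : ℝ)
        ≤ ∑ i ∈ range K, ((dens q p + e / 2) * W + 2 * W * (if ¬ Gd (J + i * W) then 1 else 0)) :=
          sum_le_sum h2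
      _ = K * ((dens q p + e / 2) * W) +
          2 * W * (((range K).filter fun i => ¬ Gd (J + i * W)).card : ℝ) := by
          rw [sum_add_distrib, sum_const, card_range, nsmul_eq_mul, ← mul_sum, sum_boole]
      _ ≤ K * ((dens q p + e / 2) * W) + 2 * W * (e / 4 * K) := by
          gcongr
      _ = (dens q p + e) * (K * W) := by ring

end Pool.Agent.H24.FD
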