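import Pool.Agent.H31.FD.CRX

set_option autoImplicit false

open Finset

namespace Pool.Agent.H24.FD

namespace CRP31

open CRX31

theorem II_mono (q : ℕ) {J J' : ℕ} (h : J ≤ J') : II q J ≤ II q J' := by
  unfold II
  exact Nat.clog_mono_right q (Nat.pow_le_pow_right (by norm_num) h)

theorem two_le (q J : ℕ) (hq : 2 ≤ q) : 2 ^ J ≤ q ^ II q J := Nat.le_pow_clog (by omega) _

/-- one coordinate of the truncated digits -/
theorem coord (q l k u J : ℕ) (hq : 2 ≤ q) (huk : u ≤ k) (hJ : l * k ≤ J) (a b : ℕ)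
    (hb : b < 2 ^ (l * (k - u))) :
    ∃ d < 2, ((2 ^ (l * (k - u)) * a + b) * 2 ^ (J - l * k) / q ^ II q (J - l * k) %
        q ^ tt q (l * k) J) / q ^ (tt q (l * k) J - tt q (l * u) J) =
      (a * 2 ^ (J - l * u) / q ^ II q (J - l * u) % q ^ tt q (l * u) J + d) %
        q ^ tt q (l * u) J := by
  have hlu : l * u ≤ l * k := Nat.mul_le_mul_left l huk
  have m1 : II q (J - l * k) ≤ II q (J - l * u) := II_mono q (by omega)
  have m2 : II q (J - l * u) ≤ II q J := II_mono q (by omega)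
  have ht : tt q (l * k) J = II q J - II q (J - l * k) := rfl
  have htu : tt q (l * u) J = II q J - II q (J - l * u) := rfl
  have hle : tt q (l * u) J ≤ tt q (l * k) J := by omega
  set t := tt q (l * k) J with ht'
  set tu := tt q (l * u) J with htu'
  have e1 : q ^ t = q ^ (t - tu) * q ^ tu := by
    rw [← pow_add]
    congr 1
    omega
  have e2 : q ^ II q (J - l * k) * q ^ (t - tu) = q ^ II q (J - l * u) := by
    rw [← pow_add]
    congr 1
    omega
  have e3 : (2 ^ (l * (k - u)) * a + b) * 2 ^ (J - l * k) =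
      a * 2 ^ (J - l * u) + b * 2 ^ (J - l * k) := by
    have : 2 ^ (l * (k - u)) * 2 ^ (J - l * k) = 2 ^ (J - l * u) := by
      rw [← pow_add]
      congr 1
      rw [Nat.mul_sub]
      omega
    rw [add_mul, ← this]
    ring
  have e4 : b * 2 ^ (J - l * k) < q ^ II q (J - l * u) := by
    refine lt_of_lt_of_le ?_ (two_le q (J - l * u) hq)
    have : 2 ^ (l * (k - u)) * 2 ^ (J - l * k) = 2 ^ (J - l * u) := by
      rw [← pow_add]
      congr 1
      rw [Nat.mul_sub]
      omega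
    rw [← this]
    exact Nat.mul_lt_mul_of_pos_right hb (by positivity)
  set Q := q ^ II q (J - l * u) with hQ
  set A := a * 2 ^ (J - l * u) with hA
  set r := b * 2 ^ (J - l * k) with hr
  have hQ0 : 0 < Q := by
    rw [hQ]
    positivity
  refine ⟨(A % Q + r) / Q, ?_, ?_⟩
  · apply Nat.div_lt_of_lt_mul
    have := Nat.mod_lt A hQ0
    omega
  · rw [e1, Nat.mod_mul_right_div_self, Nat.div_div_eq_div_mul, e2, e3, Nat.mod_add_mod]
    congr 1
    have : A + r = Q * (A / Q) + (A % Q + r) := by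
      have := Nat.div_add_mod A Q
      omega
    conv_lhs => rw [this]
    rw [Nat.mul_add_div hQ0]

theorem omF_nonneg' (q m g t₁ t tu : ℕ) (κ : ℝ) (wm : ℕ → ℕ → ℝ) (h : MK q m κ wm)
    (c : ℕ × ℕ) : 0 ≤ omF q m g t₁ wm t tu c := by
  unfold omF
  exact prod_nonneg fun _ _ => h.nonneg _ _

theorem omF_le_omFP (q m g t₁ t tu : ℕ) (κ : ℝ) (wm : ℕ → ℕ → ℝ) (h : MK q m κ wm)
    (c : ℕ × ℕ) (d₁ d₂ : ℕ) (h1 : d₁ < 2) (h2 : d₂ < 2) :
    omF q m g t₁ wm t tu ((c.1 + d₁) % q ^ tu, (c.2 + d₂) % q ^ tu) ≤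
      omFP q m g t₁ wm t tu c := by
  unfold omFP
  have a1 : ∑ d₂ ∈ range 2, omF q m g t₁ wm t tu ((c.1 + d₁) % q ^ tu, (c.2 + d₂) % q ^ tu) ≤
      ∑ d₁ ∈ range 2, ∑ d₂ ∈ range 2,
        omF q m g t₁ wm t tu ((c.1 + d₁) % q ^ tu, (c.2 + d₂) % q ^ tu) :=
    single_le_sum (f := fun d₁ => ∑ d₂ ∈ range 2,
      omF q m g t₁ wm t tu ((c.1 + d₁) % q ^ tu, (c.2 + d₂) % q ^ tu))
      (fun _ _ => sum_nonneg fun _ _ => omF_nonneg' q m g t₁ t tu κ wm h _) (mem_range.2 h1)
  refine le_trans ?_ a1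
  exact single_le_sum (f := fun d₂ =>
      omF q m g t₁ wm t tu ((c.1 + d₁) % q ^ tu, (c.2 + d₂) % q ^ tu))
      (fun _ _ => omF_nonneg' q m g t₁ t tu κ wm h _) (mem_range.2 h2)

theorem omFP_nonneg (q m g t₁ t tu : ℕ) (κ : ℝ) (wm : ℕ → ℕ → ℝ) (h : MK q m κ wm)
    (c : ℕ × ℕ) : 0 ≤ omFP q m g t₁ wm t tu c := by
  unfold omFP
  exact sum_nonneg fun _ _ => sum_nonneg fun _ _ => omF_nonneg' q m g t₁ t tu κ wm h _

theorem tt_add (q w J n : ℕ) :
    (tt q (w * (n + 2)) J : ℝ) = tt q (w * (n + 1)) J + tt q w (J - w * (n + 1)) := by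
  have e : J - w * (n + 2) = J - w * (n + 1) - w := by
    rw [Nat.sub_sub]
    congr 1
  have m1 : II q (J - w * (n + 1) - w) ≤ II q (J - w * (n + 1)) := II_mono q (Nat.sub_le _ _)
  have m2 : II q (J - w * (n + 1)) ≤ II q J := II_mono q (Nat.sub_le _ _)
  have : tt q (w * (n + 2)) J = tt q (w * (n + 1)) J + tt q w (J - w * (n + 1)) := by
    unfold tt
    rw [e]
    omega
  exact_mod_cast this

theorem prod_C (q w J : ℕ) (hq : 2 ≤ q) (κ : ℝ) : ∀ n : ℕ,
    ∏ j ∈ range n, (6 * (q : ℝ) ^ (κ * (tt q w (J - w * (j + 1)) : ℝ))) =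
      6 ^ n * (q : ℝ) ^ (κ * ((tt q (w * (n + 1)) J : ℝ) - tt q w J)) := by
  intro n
  have hq0 : (0 : ℝ) < q := by
    have : 0 < q := by omega
    exact_mod_cast this
  induction n with
  | zero => simp
  | succ n ih =>
    rw [prod_range_succ, ih, tt_add q w J n]
    have : (q : ℝ) ^ (κ * ((tt q (w * (n + 1)) J : ℝ) + tt q w (J - w * (n + 1)) - tt q w J)) =
        (q : ℝ) ^ (κ * ((tt q (w * (n + 1)) J : ℝ) - tt q w J)) *
          (q : ℝ) ^ (κ * (tt q w (J - w * (n + 1)) : ℝ)) := by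
      rw [← Real.rpow_add hq0]
      congr 1
      ring
    rw [this]
    ring

end CRP31

open CRX31 CRP31

theorem crp (hV : VALSStmt) (hE : EPAStmt) (hK : KERStmt) (hF : KEFStmt) : CRPStmt := by
  intro q m g t₁ l k G Jt κ ε wm hq hm hg hκ hMK hMarg hl hk htt n J u huk hJ hG f M hf hM hEM x
  have hq0 : (0 : ℝ) < q := by
    have : 0 < q := by omega
    exact_mod_cast this
  have hq1 : (1 : ℝ) ≤ q := by
    have : 1 ≤ q := by omega
    exact_mod_cast this
  have hw : l * k ≤ J := le_trans (Nat.le_mul_of_pos_right _ (Nat.succ_pos n)) hJ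
  have hlu : l * u ≤ l * k := Nat.mul_le_mul_left l huk
  have hJj : ∀ j ≤ n, l * k ≤ J - l * k * j := by
    intro j hj
    have h1 : l * k * (j + 1) ≤ l * k * (n + 1) := Nat.mul_le_mul_left _ (by omega)
    rw [Nat.mul_add, Nat.mul_one] at h1
    omega
  have hom : ∀ j ≤ n, ∀ z, omW q m g t₁ wm (l * k) G Jt (J - l * k * j) z =
      omK q m g t₁ wm (tt q (l * k) (J - l * k * j)) z := by
    intro j hj z
    unfold omW
    rw [if_neg]
    have h1 : J - l * k * j ≤ J := Nat.sub_le _ _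
    omega
  have hom0 : ∀ z, omW q m g t₁ wm (l * k) G Jt J z = omK q m g t₁ wm (tt q (l * k) J) z := by
    intro z
    have := hom 0 (Nat.zero_le n) z
    rwa [Nat.mul_zero, Nat.sub_zero] at this
  have hKer : ∀ j ≤ n, ∀ z, 0 ≤ omK q m g t₁ wm (tt q (l * k) (J - l * k * j)) z ∧
      omK q m g t₁ wm (tt q (l * k) (J - l * k * j)) z ≤
        2 * (q : ℝ) ^ (κ * (tt q (l * k) (J - l * k * j) : ℝ)) := by
    intro j hj z
    have h1 := hK q m g t₁ (tt q (l * k) (J - l * k * j)) κ wm hq hm hg (htt _ (hJj j hj)) hκ hMK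
    exact ⟨h1.1 z, h1.2.2.1 z⟩
  set t := tt q (l * k) J with ht
  set tu := tt q (l * u) J with htu
  have htule : tu ≤ t := by
    have m1 : II q (J - l * k) ≤ II q (J - l * u) := II_mono q (by omega)
    rw [ht, htu]
    unfold tt
    omega
  have htuR : (tu : ℝ) ≤ t := by exact_mod_cast htule
  -- the rest
  have hrest : ∀ y, RT q l k ε (omW q m g t₁ wm (l * k) G Jt) (J - l * k) n f y ≤
      (6 ^ n * (q : ℝ) ^ (κ * ((tt q (l * k * (n + 1)) J : ℝ) - t))) * EP ε l (k * n) f y := by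
    intro y
    have h1 := RT_le hE q l k ε hMarg (omW q m g t₁ wm (l * k) G Jt) f hf n (J - l * k)
      (fun j => 6 * (q : ℝ) ^ (κ * (tt q (l * k) (J - l * k * (j + 1)) : ℝ))) (by
        intro j hj z
        have e : J - l * k - l * k * j = J - l * k * (j + 1) := by
          rw [Nat.sub_sub, Nat.mul_add, Nat.mul_one, Nat.add_comm]
        rw [e, hom (j + 1) (by omega) z]
        have h2 := hKer (j + 1) (by omega) z
        refine ⟨h2.1, ?_⟩
        have h3 : (1 : ℝ) ≤ (q : ℝ) ^ (κ * (tt q (l * k) (J - l * k * (j + 1)) : ℝ)) :=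
          Real.one_le_rpow hq1 (by positivity)
        linarith [h2.2]) y
    rw [prod_C q (l * k) J hq κ n] at h1
    exact h1
  have hRnn : ∀ y, 0 ≤ RT q l k ε (omW q m g t₁ wm (l * k) G Jt) (J - l * k) n f y := by
    apply RT_nonneg q l k ε _ f hf n (J - l * k)
    intro j hj z
    have e : J - l * k - l * k * j = J - l * k * (j + 1) := by
      rw [Nat.sub_sub, Nat.mul_add, Nat.mul_one, Nat.add_comm]
    rw [e, hom (j + 1) (by omega) z]
    exact (hKer (j + 1) (by omega) z).1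
  set a := (q : ℝ) ^ (κ * ((t : ℝ) - tu + m)) with ha
  have ha1 : 1 ≤ a := by
    apply Real.one_le_rpow hq1
    apply mul_nonneg hκ
    have : (0 : ℝ) ≤ m := Nat.cast_nonneg m
    linarith
  set C := 6 ^ n * (q : ℝ) ^ (κ * ((tt q (l * k * (n + 1)) J : ℝ) - t)) with hC
  have hC0 : 0 ≤ C := by
    rw [hC]
    positivity
  -- first block, pointwise
  have hfirst : ∀ (yu : ℕ × ℕ) (U' : Fin (k - u) → Fin l → Fin 3),
      1 + 2 * omW q m g t₁ wm (l * k) G Jt J (zz q (l * k) J (app yu U')) ≤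
        6 * a * (1 + 2 * omFP q m g t₁ wm t tu (zz q (l * u) J yu)) := by
    intro yu U'
    rw [hom0]
    have h1 := (hF q m g t₁ t tu κ wm hq hm hg (htt J hw) htule hκ hMK).2.1
      (zz q (l * k) J (app yu U'))
    obtain ⟨hv1, hv2, -⟩ := hV l (k - u) U'
    obtain ⟨d₁, hd₁, e₁⟩ := coord q l k u J hq huk hw yu.1 (VN U') hv1
    obtain ⟨d₂, hd₂, e₂⟩ := coord q l k u J hq huk hw yu.2 (VA U') hv2
    have e : ((zz q (l * k) J (app yu U')).1 / q ^ (t - tu),
        (zz q (l * k) J (app yu U')).2 / q ^ (t - tu)) =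
        (((zz q (l * u) J yu).1 + d₁) % q ^ tu, ((zz q (l * u) J yu).2 + d₂) % q ^ tu) := by
      apply Prod.ext
      · exact e₁
      · exact e₂
    rw [e] at h1
    have h2 := omF_le_omFP q m g t₁ t tu κ wm hMK (zz q (l * u) J yu) d₁ d₂ hd₁ hd₂
    have h3 := omFP_nonneg q m g t₁ t tu κ wm hMK (zz q (l * u) J yu)
    have h4 : 2 * a * omF q m g t₁ wm t tu
        (((zz q (l * u) J yu).1 + d₁) % q ^ tu, ((zz q (l * u) J yu).2 + d₂) % q ^ tu) ≤
        2 * a * omFP q m g t₁ wm t tu (zz q (l * u) J yu) :=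
      mul_le_mul_of_nonneg_left h2 (by linarith)
    have h5 : 0 ≤ a * omFP q m g t₁ wm t tu (zz q (l * u) J yu) :=
      mul_nonneg (by linarith) h3
    nlinarith
  have hku : u + (k - u) = k := by omega
  have hkn : k * (n + 1) - u = (k - u) + k * n := by
    rw [Nat.mul_add, Nat.mul_one]
    omega
  have hpt : ∀ yu : ℕ × ℕ, EP ε l (k - u) (fun y =>
      (1 + 2 * omW q m g t₁ wm (l * k) G Jt J (zz q (l * k) J y)) *
        RT q l k ε (omW q m g t₁ wm (l * k) G Jt) (J - l * k) n f y) yu ≤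
      (6 * a * C * M) * (1 + 2 * omFP q m g t₁ wm t tu (zz q (l * u) J yu)) := by
    intro yu
    have h3 := omFP_nonneg q m g t₁ t tu κ wm hMK (zz q (l * u) J yu)
    have hb : 0 ≤ 6 * a * (1 + 2 * omFP q m g t₁ wm t tu (zz q (l * u) J yu)) := by
      apply mul_nonneg
      · linarith
      · linarith
    have h1 : EP ε l (k - u) (fun y =>
        (1 + 2 * omW q m g t₁ wm (l * k) G Jt J (zz q (l * k) J y)) *
          RT q l k ε (omW q m g t₁ wm (l * k) G Jt) (J - l * k) n f y) yu ≤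
        EP ε l (k - u) (fun y => (6 * a * (1 + 2 * omFP q m g t₁ wm t tu (zz q (l * u) J yu))) *
          (C * EP ε l (k * n) f y)) yu := by
      unfold EP
      apply sum_le_sum
      intro U' _
      apply mul_le_mul_of_nonneg_left _ (PT_nonneg _ _)
      exact mul_le_mul (hfirst yu U') (hrest _) (hRnn _) hb
    refine h1.trans ?_
    rw [EP_smul, EP_smul, ← (hE ε l hMarg).1 (k - u) (k * n) f yu, ← hkn]
    have h2 := hEM yu
    calc 6 * a * (1 + 2 * omFP q m g t₁ wm t tu (zz q (l * u) J yu)) *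
          (C * EP ε l (k * (n + 1) - u) f yu)
        ≤ 6 * a * (1 + 2 * omFP q m g t₁ wm t tu (zz q (l * u) J yu)) * (C * M) :=
          mul_le_mul_of_nonneg_left (mul_le_mul_of_nonneg_left h2 hC0) hb
      _ = _ := by ring
  have hmain : RT q l k ε (omW q m g t₁ wm (l * k) G Jt) J (n + 1) f x ≤
      (6 * a * C * M) * EP ε l u (fun y => 1 + 2 * omFP q m g t₁ wm t tu (zz q (l * u) J y)) x := by
    calc RT q l k ε (omW q m g t₁ wm (l * k) G Jt) J (n + 1) f x
        = EP ε l k (fun y => (1 + 2 * omW q m g t₁ wm (l * k) G Jt J (zz q (l * k) J y)) *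
            RT q l k ε (omW q m g t₁ wm (l * k) G Jt) (J - l * k) n f y) x := rfl
      _ = EP ε l (u + (k - u)) (fun y =>
            (1 + 2 * omW q m g t₁ wm (l * k) G Jt J (zz q (l * k) J y)) *
            RT q l k ε (omW q m g t₁ wm (l * k) G Jt) (J - l * k) n f y) x := by rw [hku]
      _ = EP ε l u (fun yu => EP ε l (k - u) (fun y =>
            (1 + 2 * omW q m g t₁ wm (l * k) G Jt J (zz q (l * k) J y)) *
            RT q l k ε (omW q m g t₁ wm (l * k) G Jt) (J - l * k) n f y) yu) x :=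
          (hE ε l hMarg).1 _ _ _ _
      _ ≤ EP ε l u (fun yu => (6 * a * C * M) *
            (1 + 2 * omFP q m g t₁ wm t tu (zz q (l * u) J yu))) x :=
          EP_mono _ _ _ _ _ _ hpt
      _ = _ := by rw [EP_smul]
  refine hmain.trans ?_
  have hEPnn : 0 ≤ EP ε l u (fun y => 1 + 2 * omFP q m g t₁ wm t tu (zz q (l * u) J y)) x := by
    apply EP_nonneg
    intro y
    have := omFP_nonneg q m g t₁ t tu κ wm hMK (zz q (l * u) J y)
    linarith
  apply mul_le_mul_of_nonneg_right _ hEPnn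
  apply mul_le_mul_of_nonneg_right _ hM
  have h6 : 6 * a * C = 6 ^ (n + 1) *
      (q : ℝ) ^ (κ * ((tt q (l * k * (n + 1)) J : ℝ) - tu + m)) := by
    rw [ha, hC]
    have : (q : ℝ) ^ (κ * ((tt q (l * k * (n + 1)) J : ℝ) - tu + m)) =
        (q : ℝ) ^ (κ * ((t : ℝ) - tu + m)) *
          (q : ℝ) ^ (κ * ((tt q (l * k * (n + 1)) J : ℝ) - t)) := by
      rw [← Real.rpow_add hq0]
      congr 1
      ring
    rw [this, pow_succ]
    ring
  rw [h6]
  apply mul_le_mul_of_nonneg_left _ (by positivity)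
  apply Real.rpow_le_rpow_of_exponent_le hq1
  apply mul_le_mul_of_nonneg_left _ hκ
  linarith

end Pool.Agent.H24.FD
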