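import Pool.Agent.H24.FD.P2

set_option autoImplicit false

open Finset

namespace Pool.Agent.H24.FD

namespace CRX31

theorem PT_nonneg {l k : ℕ} (ε : ℝ) (S : Fin k → Fin l → Fin 3) : 0 ≤ PT ε S := by
  unfold PT
  apply prod_nonneg
  intro i _
  unfold pT
  split_ifs <;> positivity

theorem EP_smul (ε : ℝ) (l u : ℕ) (c : ℝ) (g : ℕ × ℕ → ℝ) (x : ℕ × ℕ) :
    EP ε l u (fun y => c * g y) x = c * EP ε l u g x := by
  unfold EP
  rw [mul_sum]
  apply sum_congr rfl
  intro U _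
  ring

theorem EP_mono (ε : ℝ) (l u : ℕ) (f g : ℕ × ℕ → ℝ) (x : ℕ × ℕ) (h : ∀ y, f y ≤ g y) :
    EP ε l u f x ≤ EP ε l u g x :=
  sum_le_sum fun _ _ => mul_le_mul_of_nonneg_left (h _) (PT_nonneg _ _)

theorem EP_nonneg (ε : ℝ) (l u : ℕ) (f : ℕ × ℕ → ℝ) (x : ℕ × ℕ) (h : ∀ y, 0 ≤ f y) :
    0 ≤ EP ε l u f x :=
  sum_nonneg fun _ _ => mul_nonneg (PT_nonneg _ _) (h _)

theorem EP_zero (ε : ℝ) (l : ℕ) (f : ℕ × ℕ → ℝ) (x : ℕ × ℕ) : EP ε l 0 f x = f x := by
  unfold EP PT app VN VA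
  simp

theorem RT_nonneg (q l k : ℕ) (ε : ℝ) (om : ℕ → ℕ × ℕ → ℝ) (f : ℕ × ℕ → ℝ)
    (hf : ∀ y, 0 ≤ f y) : ∀ (n J : ℕ), (∀ j < n, ∀ z, 0 ≤ om (J - l * k * j) z) →
    ∀ x, 0 ≤ RT q l k ε om J n f x := by
  intro n
  induction n with
  | zero =>
    intro J _ x
    exact hf x
  | succ n ih =>
    intro J h x
    have h0 := h 0 (Nat.succ_pos n)
    rw [Nat.mul_zero, Nat.sub_zero] at h0
    show 0 ≤ EP ε l k (fun y => (1 + 2 * om J (zz q (l * k) J y)) *
      RT q l k ε om (J - l * k) n f y) x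
    apply EP_nonneg
    intro y
    apply mul_nonneg
    · have := h0 (zz q (l * k) J y)
      linarith
    · apply ih
      intro j hj z
      have := h (j + 1) (by omega) z
      rwa [Nat.mul_add, Nat.mul_one, Nat.add_comm, ← Nat.sub_sub] at this

theorem RT_le (hE : EPAStmt) (q l k : ℕ) (ε : ℝ) (hM : Marg ε l) (om : ℕ → ℕ × ℕ → ℝ)
    (f : ℕ × ℕ → ℝ) (hf : ∀ y, 0 ≤ f y) : ∀ (n J : ℕ) (Bd : ℕ → ℝ),
    (∀ j < n, ∀ z, 0 ≤ om (J - l * k * j) z ∧ 1 + 2 * om (J - l * k * j) z ≤ Bd j) →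
    ∀ x, RT q l k ε om J n f x ≤ (∏ j ∈ range n, Bd j) * EP ε l (k * n) f x := by
  intro n
  induction n with
  | zero =>
    intro J Bd _ x
    rw [Nat.mul_zero, EP_zero, prod_range_zero, one_mul]
    exact le_refl _
  | succ n ih =>
    intro J Bd h x
    have h0 := h 0 (Nat.succ_pos n)
    rw [Nat.mul_zero, Nat.sub_zero] at h0
    have hsh : ∀ j < n, ∀ z, 0 ≤ om (J - l * k - l * k * j) z ∧
        1 + 2 * om (J - l * k - l * k * j) z ≤ Bd (j + 1) := by
      intro j hj z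
      have := h (j + 1) (by omega) z
      rwa [Nat.mul_add, Nat.mul_one, Nat.add_comm (l * k * j), ← Nat.sub_sub] at this
    have h1 := ih (J - l * k) (fun j => Bd (j + 1)) hsh
    have hB0 : 0 ≤ Bd 0 := by
      have := h0 (0, 0)
      linarith [this.1, this.2]
    have hR := RT_nonneg q l k ε om f hf n (J - l * k) (fun j hj z => (hsh j hj z).1)
    calc RT q l k ε om J (n + 1) f x
        = EP ε l k (fun y => (1 + 2 * om J (zz q (l * k) J y)) *
            RT q l k ε om (J - l * k) n f y) x := rfl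
      _ ≤ EP ε l k (fun y => (Bd 0 * ∏ j ∈ range n, Bd (j + 1)) * EP ε l (k * n) f y) x := by
          apply EP_mono
          intro y
          have h2 := (h0 (zz q (l * k) J y)).2
          calc (1 + 2 * om J (zz q (l * k) J y)) * RT q l k ε om (J - l * k) n f y
              ≤ Bd 0 * RT q l k ε om (J - l * k) n f y :=
                mul_le_mul_of_nonneg_right h2 (hR y)
            _ ≤ Bd 0 * ((∏ j ∈ range n, Bd (j + 1)) * EP ε l (k * n) f y) :=
                mul_le_mul_of_nonneg_left (h1 y) hB0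
            _ = _ := by ring
      _ = (Bd 0 * ∏ j ∈ range n, Bd (j + 1)) * EP ε l (k + k * n) f x := by
          rw [EP_smul, (hE ε l hM).1 k (k * n) f x]
      _ = _ := by
          rw [prod_range_succ', mul_comm (Bd 0), Nat.mul_add, Nat.mul_one, Nat.add_comm k]

end CRX31

open CRX31

theorem crx (hE : EPAStmt) : CRXStmt := by
  intro q l k ε om hM n J u Bd hu hom hBd f M hf hM0 hEM x
  have h1 := RT_le hE q l k ε hM om f hf n J (fun j => 3 * Bd j) (by
    intro j hj z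
    have h2 := hom j hj z
    have h3 := hBd j
    refine ⟨h2.1, ?_⟩
    linarith [h2.2]) x
  have h2 : EP ε l (k * n) f x ≤ M := by
    have e : k * n = u + (k * n - u) := by omega
    rw [e, (hE ε l hM).1]
    refine (EP_mono ε l u _ (fun _ => M) x hEM).trans ?_
    exact (hE ε l hM).2.2.1 u M x hM0
  refine h1.trans ?_
  apply mul_le_mul_of_nonneg_left h2
  apply prod_nonneg
  intro j _
  have := hBd j
  positivity

end Pool.Agent.H24.FD
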