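import Pool.Agent.H42.FD.KER
import Pool.Agent.H24.FD.P4

set_option autoImplicit false

namespace Pool.Agent.H24.FD

open Finset G42

theorem keq : KEQStmt := by
  intro q m g t₁ t κ wm hq hm hg ht hκ hw V i hti hi b _
  have hφ := lo_gd hq hg
  have hq1 : 1 ≤ q := by omega
  have hq0 : (0 : ℝ) < q := by
    have : 0 < q := by omega
    exact_mod_cast this
  have hn := nb_le m g t₁ t ht
  simp only [omK_G]
  refine (sum_part hq1 hκ hw hφ _ _ hn (t - i) (by omega) V b).trans ?_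
  have h1 : ((t - t₁ : ℕ) : ℝ) - (t - i : ℕ) + m = m + (i - t₁ : ℕ) := by
    rw [Nat.cast_sub (by omega), Nat.cast_sub hi, Nat.cast_sub hti]
    ring
  rw [h1, mul_add, Real.rpow_add hq0]
  have h2 : ((q : ℝ) ^ (i - t₁)) ^ κ = (q : ℝ) ^ (κ * ((i - t₁ : ℕ) : ℝ)) := by
    rw [← Real.rpow_natCast, ← Real.rpow_mul hq0.le, mul_comm]
  rw [h2]
  apply le_of_eq
  ring

end Pool.Agent.H24.FD
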