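import Mathlib
import Pool.Agent.H24.FD.P5
import Pool.Agent.H78.FD.GLZ

/-!
# MP_1f2761, k = 2, row KLE: the cells of `LCE`, `GCE` are allowed in `SFV`
-/

set_option autoImplicit false

open Finset Pool.K2 Pool.FD MeasureTheory

namespace Pool.Agent.H24.FD

/-- **KLE**. -/
theorem kle : KLEStmt := by
  intro q l k J hq hq5 hl hk hJ
  have hq0 : 0 < q := by omega
  refine ⟨Nat.mul_pos (pow_pos hq0 _) (by positivity), ?_⟩
  obtain ⟨_, _, _, _, _, ⟨h, _⟩, _⟩ := glz q (l * k) J hq hJ 0 0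
  have h1 : q ^ tt q (l * k) J ≤ q * 2 ^ (l * k) := by exact_mod_cast h
  have h2 : l + 3 ≤ l * k := by nlinarith
  calc q ^ tt q (l * k) J * 2 ^ l ≤ q * 2 ^ (l * k) * 2 ^ l := Nat.mul_le_mul_right _ h1
    _ ≤ 8 * 2 ^ (l * k) * 2 ^ l := by
        apply Nat.mul_le_mul_right
        apply Nat.mul_le_mul_right
        omega
    _ = 2 ^ (l * k) * 2 ^ (l + 3) := by ring
    _ ≤ 2 ^ (l * k) * 2 ^ (l * k) := Nat.mul_le_mul_left _ (Nat.pow_le_pow_right (by norm_num) h2)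
    _ = 4 ^ (l * k) := by
        rw [← Nat.mul_pow]

end Pool.Agent.H24.FD
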