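import Pool.Agent.H24.FD.P4

set_option autoImplicit false

open Finset Pool.K2 Pool.FD MeasureTheory

namespace Pool.Agent.H24.FD

namespace LOR31

/-- the string with the symbols `1` replaced by `0` -/
def nS {l k : ℕ} (S : Fin k → Fin l → Fin 3) : Fin k → Fin l → Fin 3 :=
  fun i j => if S i j = 2 then 2 else 0

theorem VN_nS {l k : ℕ} (S : Fin k → Fin l → Fin 3) : VN (nS S) = VN S := by
  unfold VN vN nS
  apply sum_congr rfl
  intro i _
  congr 1
  apply sum_congr rfl
  intro j _
  congr 1
  by_cases h : S i j = 2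
  · simp [h]
  · simp [h]

theorem VA_nS {l k : ℕ} (S : Fin k → Fin l → Fin 3) : VA (nS S) = VN S := by
  unfold VA VN vA vN nS
  apply sum_congr rfl
  intro i _
  congr 1
  apply sum_congr rfl
  intro j _
  congr 1
  by_cases h : S i j = 2
  · simp [h]
  · simp [h]

theorem two_iff (hV : VALSStmt) {l k : ℕ} (S S' : Fin k → Fin l → Fin 3) (h : VN S = VN S')
    (i : Fin k) (j : Fin l) : S i j = 2 ↔ S' i j = 2 := by
  have h1 : nS S = nS S' := (hV l k (nS S)).2.2.2 (nS S') (by rw [VN_nS, VN_nS, h])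
    (by rw [VA_nS, VA_nS, h])
  have h2 := congrFun (congrFun h1 i) j
  unfold nS at h2
  by_cases a : S i j = 2
  · by_cases b : S' i j = 2
    · exact ⟨fun _ => b, fun _ => a⟩
    · rw [if_pos a, if_neg b] at h2
      exact absurd h2 (by decide)
  · by_cases b : S' i j = 2
    · rw [if_neg a, if_pos b] at h2
      exact absurd h2 (by decide)
    · exact ⟨fun h => absurd h a, fun h => absurd h b⟩

theorem typN_iff (hV : VALSStmt) (ε : ℝ) {l k : ℕ} (S S' : Fin k → Fin l → Fin 3)
    (h : VN S = VN S') (i : Fin k) : typN ε (S i) ↔ typN ε (S' i) := by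
  have h1 : cn 2 (S i) = cn 2 (S' i) := by
    unfold cn
    congr 1
    apply filter_congr
    intro j _
    exact two_iff hV S S' h i j
  unfold typN
  rw [h1]

theorem mem_HH (hV : VALSStmt) {l k : ℕ} (S : Fin k → Fin l → Fin 3) :
    (∀ i, typN eb (S i)) ↔ VN S ∈ HH l k := by
  classical
  unfold HH
  rw [mem_filter, mem_range]
  constructor
  · intro h
    refine ⟨(hV l k S).1, ?_⟩
    intro S' hS' i
    exact (typN_iff hV eb S' S hS' i).2 (h i)
  · intro h
    exact h.2 S rfl

end LOR31

open LOR31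

theorem lor (hV : VALSStmt) (hP : PFMStmt) (hZ : ZZFStmt) : LORStmt := by
  intro q m g t₁ l k G Jt J wm hPar hJ hG x
  have hZZ := hZ q m g t₁ l k G Jt J wm hPar.hq hJ hG x
  classical
  have h1 : ∀ S : Fin k → Fin l → Fin 3, (if (∀ i, typN eb (S i)) ∧
      ¬ keep q l k eb (omW q m g t₁ wm (l * k) G Jt) J x S then
      piQ q l k eb (omW q m g t₁ wm (l * k) G Jt) J x S else 0) =
      (if (VN S ∈ HH l k ∧ Zt q m g t₁ l k wm J (VN S) (x.1 * yy q J) (x.2 * yy q J) < 1 / 2)
        then PF eb S else 0) := by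
    intro S
    have e : ((∀ i, typN eb (S i)) ∧
        ¬ keep q l k eb (omW q m g t₁ wm (l * k) G Jt) J x S) ↔
        (VN S ∈ HH l k ∧ Zt q m g t₁ l k wm J (VN S) (x.1 * yy q J) (x.2 * yy q J) < 1 / 2) := by
      unfold keep
      rw [hZZ S, ← mem_HH hV S]
      constructor
      · rintro ⟨a, b⟩
        refine ⟨a, ?_⟩
        by_contra hcon
        push Not at hcon
        exact b ⟨a, hcon⟩
      · rintro ⟨a, b⟩
        refine ⟨a, ?_⟩
        rintro ⟨_, c⟩
        linarith
    by_cases h : (∀ i, typN eb (S i)) ∧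
        ¬ keep q l k eb (omW q m g t₁ wm (l * k) G Jt) J x S
    · rw [if_pos h, if_pos (e.1 h)]
      unfold piQ
      rw [if_neg h.2]
    · rw [if_neg h, if_neg (fun h' => h (e.2 h'))]
  rw [sum_congr rfl (fun S _ => h1 S)]
  have hmaps : ∀ S ∈ (univ : Finset (Fin k → Fin l → Fin 3)), VN S ∈ range (2 ^ (l * k)) :=
    fun S _ => mem_range.2 (hV l k S).1
  rw [← sum_fiberwise_of_maps_to hmaps]
  have h2 : ∀ e ∈ range (2 ^ (l * k)),
      ∑ S ∈ (univ : Finset (Fin k → Fin l → Fin 3)) with VN S = e,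
        (if (VN S ∈ HH l k ∧ Zt q m g t₁ l k wm J (VN S) (x.1 * yy q J) (x.2 * yy q J) < 1 / 2)
          then PF eb S else 0) =
      (if e ∈ HH l k then (if Zt q m g t₁ l k wm J e (x.1 * yy q J) (x.2 * yy q J) < 1 / 2 then
        (1 : ℝ) else 0) else 0) / 2 ^ (l * k) := by
    intro e he
    have h3 := hP eb l hPar.marg k e (mem_range.1 he)
    rw [← sum_filter] at h3
    by_cases ha : e ∈ HH l k
    · by_cases hb : Zt q m g t₁ l k wm J e (x.1 * yy q J) (x.2 * yy q J) < 1 / 2
      · rw [if_pos ha, if_pos hb, ← h3]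
        apply sum_congr rfl
        intro S hS
        have hS' : VN S = e := (mem_filter.1 hS).2
        rw [if_pos]
        rw [hS']
        exact ⟨ha, hb⟩
      · rw [if_pos ha, if_neg hb, zero_div]
        apply sum_eq_zero
        intro S hS
        have hS' : VN S = e := (mem_filter.1 hS).2
        rw [if_neg]
        rw [hS']
        exact fun h => hb h.2
    · rw [if_neg ha, zero_div]
      apply sum_eq_zero
      intro S hS
      have hS' : VN S = e := (mem_filter.1 hS).2
      rw [if_neg]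
      rw [hS']
      exact fun h => ha h.1
  rw [sum_congr rfl h2, ← sum_div]
  unfold Lo
  congr 1
  rw [← sum_filter]
  apply sum_congr _ (fun _ _ => rfl)
  ext e
  rw [mem_filter]
  constructor
  · exact fun h => h.2
  · intro h
    refine ⟨?_, h⟩
    unfold HH at h
    exact (mem_filter.1 h).1

end Pool.Agent.H24.FD
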