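import Pool.Agent.H24.FD.P2
import Pool.Agent.H93.KE.Num

set_option autoImplicit false

open Finset

namespace Pool.Agent.H24.FD

namespace MKX31

/-- digit `p` from below -/
def dig (q V p : ℕ) : ℕ := V / q ^ p % q

theorem lt_of_dig (q V A s : ℕ) (hq : 0 < q) (h0 : dig q V s < dig q A s) :
    ∀ d : ℕ, (∀ p, s < p → p ≤ s + d → dig q V p = dig q A p) →
      V % q ^ (s + d + 1) < A % q ^ (s + d + 1) := by
  intro d
  induction d with
  | zero =>
    intro _
    rw [Nat.add_zero, Nat.mod_pow_succ, Nat.mod_pow_succ]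
    unfold dig at h0
    have h1 : V % q ^ s < q ^ s := Nat.mod_lt _ (pow_pos hq s)
    calc V % q ^ s + q ^ s * (V / q ^ s % q) < q ^ s + q ^ s * (V / q ^ s % q) :=
          Nat.add_lt_add_right h1 _
      _ = q ^ s * (V / q ^ s % q + 1) := by ring
      _ ≤ q ^ s * (A / q ^ s % q) := Nat.mul_le_mul_left _ h0
      _ ≤ A % q ^ s + q ^ s * (A / q ^ s % q) := Nat.le_add_left _ _
  | succ d ih =>
    intro h
    have h1 := ih (fun p hp hp' => h p hp (by omega))
    have h2 := h (s + d + 1) (by omega) (by omega)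
    unfold dig at h2
    have e : s + (d + 1) + 1 = (s + d + 1) + 1 := by ring
    rw [e, Nat.mod_pow_succ, Nat.mod_pow_succ (x := A), h2]
    omega

theorem eq_of_dig (q V A : ℕ) : ∀ m : ℕ, (∀ p < m, dig q V p = dig q A p) →
    V % q ^ m = A % q ^ m := by
  intro m
  induction m with
  | zero => intro _; simp [Nat.mod_one]
  | succ m ih =>
    intro h
    have h1 := ih (fun p hp => h p (by omega))
    have h2 := h m (by omega)
    unfold dig at h2
    rw [Nat.mod_pow_succ, Nat.mod_pow_succ (x := A), h1, h2]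

/-- the digit string, top digit first -/
def str (q m : ℕ) (hq : 0 < q) (V : ℕ) : Fin m → Fin q :=
  fun i => ⟨dig q V (m - 1 - i), Nat.mod_lt _ hq⟩

theorem str_inj (q m : ℕ) (hq : 0 < q) :
    Set.InjOn (str q m hq) (range (q ^ m) : Finset ℕ) := by
  intro V hV A hA h
  have hV' : V < q ^ m := by simpa using hV
  have hA' : A < q ^ m := by simpa using hA
  have h1 : V % q ^ m = A % q ^ m := by
    apply eq_of_dig
    intro p hp
    have h2 := congrFun h ⟨m - 1 - p, by omega⟩
    have h3 : dig q V (m - 1 - (m - 1 - p)) = dig q A (m - 1 - (m - 1 - p)) := by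
      have := congrArg Fin.val h2
      simpa [str] using this
    have e : m - 1 - (m - 1 - p) = p := by omega
    rwa [e] at h3
  rwa [Nat.mod_eq_of_lt hV', Nat.mod_eq_of_lt hA'] at h1

theorem str_image (q m : ℕ) (hq : 0 < q) :
    (range (q ^ m)).image (str q m hq) = univ := by
  apply eq_univ_of_card
  rw [card_image_of_injOn (str_inj q m hq), card_range, Fintype.card_fun, Fintype.card_fin,
    Fintype.card_fin]

theorem cc_le_ncar (q m : ℕ) (hq : 0 < q) (V A : ℕ) :
    Pool.Agent.H93.KE.cc (str q m hq A) (str q m hq V) ≤ ncar q m V A := by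
  unfold Pool.Agent.H93.KE.cc ncar
  apply card_le_card_of_injOn (fun i : Fin m => m - (i : ℕ))
  · intro i hi
    have hi' : i ∈ Pool.Agent.H93.KE.cset (str q m hq A) (str q m hq V) := by simpa using hi
    unfold Pool.Agent.H93.KE.cset at hi'
    rw [mem_filter] at hi'
    obtain ⟨-, j, hij, heq, hlt⟩ := hi'
    have hi2 := i.2
    have hj2 := j.2
    have hij' : (i : ℕ) ≤ (j : ℕ) := hij
    have key := lt_of_dig q V A (m - 1 - j) hq (by
      have : (str q m hq V j).val < (str q m hq A j).val := hlt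
      simpa [str] using this) (j - i) (by
      intro p hp hp'
      have h1 := heq ⟨m - 1 - p, by omega⟩ (by
        show (i : ℕ) ≤ m - 1 - p
        omega) (by
        show m - 1 - p < (j : ℕ)
        omega)
      have h2 := congrArg Fin.val h1
      have h3 : dig q A (m - 1 - (m - 1 - p)) = dig q V (m - 1 - (m - 1 - p)) := by
        simpa [str] using h2
      have e : m - 1 - (m - 1 - p) = p := by omega
      rw [e] at h3
      exact h3.symm)
    have e : m - 1 - (j : ℕ) + (j - i) + 1 = m - i := by omega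
    rw [e] at key
    have : m - (i : ℕ) ∈ (Icc 1 m).filter fun j => V % q ^ j < A % q ^ j := by
      rw [mem_filter, mem_Icc]
      exact ⟨⟨by omega, by omega⟩, key⟩
    exact this
  · intro i _ j _ h
    have h' : m - (i : ℕ) = m - (j : ℕ) := h
    have hi2 := i.2
    have hj2 := j.2
    apply Fin.ext
    omega

theorem mkx (q : ℕ) (hq : 1 < q) (κ x : ℝ)
    (h : ∀ (ε : ℝ), 0 < ε → ∀ M : ℕ, ∃ m ≥ M, ∃ T : (Fin m → Fin q) → Finset (Fin m → Fin q),
      (∀ V, (T V).Nonempty) ∧ (∀ V, (q : ℝ) ^ ((1 - κ - ε) * m) ≤ ((T V).card : ℝ)) ∧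
      (((univ.filter fun V => ∃ A ∈ T V,
        (Pool.Agent.H93.KE.cc A V : ℝ) < (x - ε) * m).card : ℝ) ≤ ε * (q : ℝ) ^ m)) :
    MKX q κ x := by
  classical
  have hq0 : 0 < q := by omega
  have hqR : (0 : ℝ) < q := by exact_mod_cast hq0
  intro ε hε M
  obtain ⟨m, hm, T, hne, hsz, hbad⟩ := h ε hε (max M 1)
  have hmM : M ≤ m := (le_max_left _ _).trans hm
  have hm1 : 1 ≤ m := (le_max_right _ _).trans hm
  have hcard : ∀ V, (0 : ℝ) < ((T V).card : ℝ) := fun V => by
    exact_mod_cast card_pos.2 (hne V)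
  refine ⟨m, hmM, by omega, fun V A => if str q m hq0 A ∈ T (str q m hq0 V) then
    (q : ℝ) ^ m / ((T (str q m hq0 V)).card : ℝ) else 0, ?_, ?_⟩
  · constructor
    · intro V A
      split_ifs
      · positivity
      · exact le_refl _
    · intro V hV
      have h1 : ∑ A ∈ range (q ^ m), (if str q m hq0 A ∈ T (str q m hq0 V) then
          (q : ℝ) ^ m / ((T (str q m hq0 V)).card : ℝ) else 0) =
          ∑ s ∈ (range (q ^ m)).image (str q m hq0), (if s ∈ T (str q m hq0 V) then
          (q : ℝ) ^ m / ((T (str q m hq0 V)).card : ℝ) else 0) := by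
        rw [sum_image]
        intro a ha b hb hab
        exact str_inj q m hq0 ha hb hab
      rw [h1, str_image, sum_ite_mem, univ_inter, sum_const, nsmul_eq_mul]
      have := hcard (str q m hq0 V)
      field_simp
    · intro V A
      split_ifs
      · rw [div_le_iff₀ (hcard _)]
        have h1 := hsz (str q m hq0 V)
        have h2 : (q : ℝ) ^ m = (q : ℝ) ^ ((κ + ε) * m) * (q : ℝ) ^ ((1 - κ - ε) * m) := by
          rw [← Real.rpow_add hqR, ← Real.rpow_natCast]
          congr 1
          ring
        rw [h2]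
        exact mul_le_mul_of_nonneg_left h1 (Real.rpow_nonneg hqR.le _)
      · exact Real.rpow_nonneg hqR.le _
  · refine le_trans ?_ hbad
    have : ((range (q ^ m)).filter fun V => ∃ A < q ^ m,
        (if str q m hq0 A ∈ T (str q m hq0 V) then
          (q : ℝ) ^ m / ((T (str q m hq0 V)).card : ℝ) else 0) ≠ 0 ∧
        (ncar q m V A : ℝ) < (x - ε) * m).card ≤
        (univ.filter fun V => ∃ A ∈ T V,
          (Pool.Agent.H93.KE.cc A V : ℝ) < (x - ε) * m).card := by
      apply card_le_card_of_injOn (str q m hq0)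
      · intro V hV
        have hV' := mem_filter.1 (mem_coe.1 hV)
        obtain ⟨_, A, _, hne', hlt⟩ := hV'
        have hA : str q m hq0 A ∈ T (str q m hq0 V) := by
          by_contra hcon
          rw [if_neg hcon] at hne'
          exact hne' rfl
        have hcc : (Pool.Agent.H93.KE.cc (str q m hq0 A) (str q m hq0 V) : ℝ) ≤
            (ncar q m V A : ℝ) := by
          exact_mod_cast cc_le_ncar q m hq0 V A
        have : str q m hq0 V ∈ univ.filter fun V => ∃ A ∈ T V,
            (Pool.Agent.H93.KE.cc A V : ℝ) < (x - ε) * m := by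
          rw [mem_filter]
          exact ⟨mem_univ _, _, hA, lt_of_le_of_lt hcc hlt⟩
        exact mem_coe.2 this
      · intro a ha b hb hab
        exact str_inj q m hq0 (mem_coe.2 (mem_filter.1 (mem_coe.1 ha)).1)
          (mem_coe.2 (mem_filter.1 (mem_coe.1 hb)).1) hab
    exact_mod_cast this

end MKX31

theorem mkx3 : MKX3Stmt := by
  apply MKX31.mkx 3 (by norm_num)
  intro ε hε M
  have := Pool.Agent.H93.KE.kernel3 ε hε M
  exact_mod_cast this

theorem mkx5 : MKX5Stmt := by
  apply MKX31.mkx 5 (by norm_num)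
  intro ε hε M
  have := Pool.Agent.H93.KE.kernel5 ε hε M
  exact_mod_cast this

end Pool.Agent.H24.FD
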