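import Pool.Agent.H24.FD.P4

set_option autoImplicit false

open Finset Pool.K2 Pool.FD MeasureTheory

namespace Pool.Agent.H24.FD

namespace UNI31

theorem fiber (y c : ℝ) (q : ℕ) (hq : 0 < q) (hy : 1 / (q : ℝ) < y) (N : ℤ) (F : Finset ℕ)
    (hF : ∀ η ∈ F, ⌊c + y * (η : ℝ)⌋ = N) : F.card ≤ q := by
  rcases F.eq_empty_or_nonempty with h | h
  · rw [h]
    simp
  · have hqR : (0 : ℝ) < q := by exact_mod_cast hq
    have hy0 : 0 < y := lt_trans (by positivity) hy
    have hyq : 1 < y * q := by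
      rwa [div_lt_iff₀ hqR] at hy
    have hsub : F ⊆ Ico (F.min' h) (F.min' h + q) := by
      intro η hη
      rw [mem_Ico]
      refine ⟨F.min'_le η hη, ?_⟩
      by_contra hcon
      push Not at hcon
      have h1 := hF η hη
      have h2 := hF (F.min' h) (F.min'_mem h)
      rw [Int.floor_eq_iff] at h1 h2
      have h3 : ((F.min' h : ℕ) : ℝ) + q ≤ η := by exact_mod_cast hcon
      have h4 : y * (((F.min' h : ℕ) : ℝ) + q) ≤ y * η := mul_le_mul_of_nonneg_left h3 hy0.le
      rw [mul_add] at h4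
      linarith [h1.1, h1.2, h2.1, h2.2]
    have := card_le_card hsub
    rw [Nat.card_Ico] at this
    omega

end UNI31

open UNI31

theorem uni : UNIStmt := by
  intro q t w c y hq hy hy1 hyw hc S hS
  have hq0 : 0 < q := by omega
  have hqR : (0 : ℝ) < q := by exact_mod_cast hq0
  have hy0 : 0 < y := lt_trans (by positivity) hy
  have hT0 : (0 : ℤ) < (q ^ t : ℕ) := by
    have : 0 < q ^ t := pow_pos hq0 t
    exact_mod_cast this
  have hmain : ((range (2 ^ w)).filter fun η : ℕ => fl (q ^ t) (c + y * η) ∈ S).card ≤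
      (2 * q) * S.card := by
    apply card_le_mul_card_image_of_maps_to (f := fun η : ℕ => fl (q ^ t) (c + y * η))
    · intro η hη
      exact (mem_filter.1 hη).2
    · intro s hs
      set N₀ : ℤ := ⌊c⌋ + (((s : ℤ) - ⌊c⌋) % ((q ^ t : ℕ) : ℤ)) with hN₀
      have hsub : (((range (2 ^ w)).filter fun η : ℕ => fl (q ^ t) (c + y * η) ∈ S).filter
          fun η : ℕ => fl (q ^ t) (c + y * η) = s) ⊆
          ((range (2 ^ w)).filter fun η : ℕ => ⌊c + y * (η : ℝ)⌋ = N₀) ∪
          ((range (2 ^ w)).filter fun η : ℕ => ⌊c + y * (η : ℝ)⌋ = N₀ + ((q ^ t : ℕ) : ℤ)) := by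
        intro η hη
        rw [mem_filter, mem_filter] at hη
        obtain ⟨⟨h1, -⟩, h2⟩ := hη
        rw [mem_union, mem_filter, mem_filter]
        have h1' : η < 2 ^ w := mem_range.1 h1
        have hD0 : ⌊c⌋ ≤ ⌊c + y * (η : ℝ)⌋ := by
          apply Int.floor_le_floor
          have : 0 ≤ y * (η : ℝ) := by positivity
          linarith
        have hD1 : ⌊c + y * (η : ℝ)⌋ ≤ ⌊c⌋ + ((q ^ t : ℕ) : ℤ) := by
          have a1 : y * (η : ℝ) < (q ^ t : ℕ) := by
            have : (η : ℝ) < 2 ^ w := by exact_mod_cast h1'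
            have := mul_lt_mul_of_pos_left this hy0
            push_cast
            linarith
          have a2 := Int.lt_floor_add_one c
          have a3 := Int.floor_le (c + y * (η : ℝ))
          have a4 : ((⌊c + y * (η : ℝ)⌋ : ℤ) : ℝ) < ((⌊c⌋ + ((q ^ t : ℕ) : ℤ) + 1 : ℤ) : ℝ) := by
            push_cast
            push_cast at a1
            linarith
          have a5 : ⌊c + y * (η : ℝ)⌋ < ⌊c⌋ + ((q ^ t : ℕ) : ℤ) + 1 := by exact_mod_cast a4
          omega
        have hmod : ⌊c + y * (η : ℝ)⌋ % ((q ^ t : ℕ) : ℤ) = s := by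
          unfold fl at h2
          rw [← h2, Int.toNat_of_nonneg (Int.emod_nonneg _ hT0.ne')]
        have hm2 : (⌊c + y * (η : ℝ)⌋ - ⌊c⌋) % ((q ^ t : ℕ) : ℤ) =
            ((s : ℤ) - ⌊c⌋) % ((q ^ t : ℕ) : ℤ) := by
          have hme : ⌊c + y * (η : ℝ)⌋ ≡ (s : ℤ) [ZMOD ((q ^ t : ℕ) : ℤ)] := by
            unfold Int.ModEq
            rw [← hmod, Int.emod_emod]
          exact hme.sub_right ⌊c⌋
        rcases lt_or_eq_of_le hD1 with hlt | heq
        · left
          refine ⟨h1, ?_⟩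
          rw [hN₀, ← hm2, Int.emod_eq_of_lt (by omega) (by omega)]
          ring
        · right
          refine ⟨h1, ?_⟩
          rw [hN₀, ← hm2, heq]
          simp
      refine (card_le_card hsub).trans ((card_union_le _ _).trans ?_)
      have b1 := fiber y c q hq0 hy N₀ ((range (2 ^ w)).filter fun η : ℕ =>
        ⌊c + y * (η : ℝ)⌋ = N₀) (fun η hη => (mem_filter.1 hη).2)
      have b2 := fiber y c q hq0 hy (N₀ + ((q ^ t : ℕ) : ℤ)) ((range (2 ^ w)).filter fun η : ℕ =>
        ⌊c + y * (η : ℝ)⌋ = N₀ + ((q ^ t : ℕ) : ℤ)) (fun η hη => (mem_filter.1 hη).2)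
      omega
  exact_mod_cast hmain

end Pool.Agent.H24.FD
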