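import Mathlib
import Pool.Agent.H24.FD.P5

/-!
# MP_1f2761, k = 2, row ONL: one level from one block, off a small union of cells
-/

set_option autoImplicit false

open Finset Pool.K2 Pool.FD MeasureTheory

namespace Pool.Agent.H24.FD

namespace ONL31

lemma bx0_card (K : ℕ) : ((bx0 K).card : ℝ) ≤ (2 * K) ^ 2 := by
  have h1 : (bx0 K).card ≤ (bx K).card := card_le_card (filter_subset _ _)
  have h2 : (bx K).card ≤ (2 * K) * (2 * K) := by
    unfold bx
    rw [card_product, Int.card_Ioo]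
    have : ((K : ℤ) - -(K : ℤ) - 1).toNat ≤ 2 * K := by omega
    exact Nat.mul_le_mul this this
  have h3 : ((bx0 K).card : ℝ) ≤ ((2 * K) * (2 * K) : ℕ) := by exact_mod_cast h1.trans h2
  refine h3.trans (le_of_eq ?_)
  push_cast
  ring

open Classical in
lemma pF_nn (ε : ℝ) {l : ℕ} (s : Fin l → Fin 3) : 0 ≤ pF ε s := by
  unfold pF
  split_ifs <;> positivity

open Classical in
lemma atyp_nn (ε : ℝ) (l : ℕ) : 0 ≤ atyp ε l := by
  unfold atyp
  refine sum_nonneg fun s _ => ?_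
  split_ifs
  · exact le_rfl
  · exact pF_nn ε s

lemma rhoG_nn (q l : ℕ) (d d' : ℝ) (hq : 2 ≤ q) (hd : 0 < d) (hd' : 0 < d') : 0 ≤ rhoG q l d d' := by
  unfold rhoG
  have h0 : (1 : ℝ) ≤ (q : ℝ) ^ l := one_le_pow₀ (by exact_mod_cast (by omega : 1 ≤ q))
  have h1 : 0 ≤ Real.log ((q : ℝ) ^ l) := Real.log_nonneg h0
  positivity

lemma yy_le1 (q J : ℕ) (hq : 2 ≤ q) : yy q J ≤ 1 := by
  unfold yy
  have h0 : (0 : ℝ) < q := by exact_mod_cast (by omega : 0 < q)
  rw [div_le_one (by positivity)]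
  exact_mod_cast Nat.le_pow_clog (by omega : 1 < q) (2 ^ J)

end ONL31

open Classical ONL31 in
/-- **ONL**. -/
theorem onl (hP : ONPStmt) (hL : LCEStmt) (hC : GCEStmt) (hS : SPLStmt) (hE : EQBStmt)
    (hN : ONNStmt) : ONLStmt := by
  intro q m g t₁ l k G Jt J p u₁ hm u b K₀ wm c del d d' Mj hpar hl hJ hJt hp hdel hd hd' hc hK₀
    hMj hM0 hM1 hF hG hu hb
  have hom : ∀ J z, 0 ≤ omW q m g t₁ wm (l * k) G Jt J z :=
    hN q m g t₁ (l * k) G Jt kk wm hpar.hq hpar.hg hpar.hmk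
  have hat := atyp_nn eb l
  set KK := q ^ tt q (l * k) J * 2 ^ l with hKK
  obtain ⟨B0, hB0, hB0c, hB0m⟩ := hL q m g t₁ l k J wm del hpar hl hJ hdel hF
  have hex := fun κ (hκ : κ ∈ bx0 K₀) => hC q m g t₁ l k p u₁ hm K₀ J wm d d' hpar (by omega) hJ hd
    hd' hG u hu b hb κ hκ
  choose! Bk hBk hBkc hBkm using hex
  have hrho := rhoG_nn q l d d' hpar.hq hd hd'
  refine ⟨B0 ∪ (bx0 K₀).biUnion Bk, ?_, ?_, ?_⟩
  · refine union_subset hB0 ?_
    rw [biUnion_subset]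
    exact fun κ hκ => hBk κ hκ
  · have h1 : ((B0 ∪ (bx0 K₀).biUnion Bk).card : ℝ) ≤ B0.card + ∑ κ ∈ bx0 K₀, ((Bk κ).card : ℝ) := by
      have := (card_union_le B0 ((bx0 K₀).biUnion Bk)).trans
        (Nat.add_le_add_left card_biUnion_le B0.card)
      exact_mod_cast this
    calc ((B0 ∪ (bx0 K₀).biUnion Bk).card : ℝ) / ((KK : ℕ) : ℝ) ^ 2
        ≤ (B0.card + ∑ κ ∈ bx0 K₀, ((Bk κ).card : ℝ)) / ((KK : ℕ) : ℝ) ^ 2 := by gcongr
      _ = B0.card / ((KK : ℕ) : ℝ) ^ 2 + ∑ κ ∈ bx0 K₀, ((Bk κ).card : ℝ) / ((KK : ℕ) : ℝ) ^ 2 := by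
          rw [add_div, sum_div]
      _ ≤ rhoL q t₁ l del + ∑ κ ∈ bx0 K₀, rhoG q l d d' := by
          gcongr with κ hκ
          · exact hB0c
          · exact hBkc κ hκ
      _ = rhoL q t₁ l del + ((bx0 K₀).card : ℝ) * rhoG q l d d' := by
          rw [sum_const, nsmul_eq_mul]
      _ ≤ rhoL q t₁ l del + (2 * K₀) ^ 2 * rhoG q l d d' := by
          gcongr
          exact bx0_card K₀
  · intro x
    obtain ⟨hS1, _⟩ := hS q l k eb (omW q m g t₁ wm (l * k) G Jt) hpar.marg hom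
    obtain ⟨hE1, hE2, _⟩ := hE q l k eb (omW q m g t₁ wm (l * k) G Jt) hpar.marg hom
    have hnn : 0 ≤ ∑ κ ∈ bx0 K₀, ‖Mj κ‖ := sum_nonneg fun _ _ => norm_nonneg _
    split_ifs with hx
    · have h1 : EQ q l k eb (omW q m g t₁ wm (l * k) G Jt) J 1
          (fun y => if Sure p (II p (J - l * u) + b) (J - l * k) y then 0 else 1) x ≤ 1 := by
        refine (hE2 1 J _ (fun _ => 1) x fun y => ?_).trans (le_of_eq (hE1 1 J 1 x))
        split_ifs <;> norm_num
      have h2 : 0 ≤ ((Mj 0).re * (1 + del) + 3 * d' * ∑ κ ∈ bx0 K₀, ‖Mj κ‖ + 2 * del) +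
          k * atyp eb l := by positivity
      linarith
    · rw [mem_union, mem_biUnion] at hx
      push Not at hx
      obtain ⟨hx0, hx1⟩ := hx
      obtain ⟨hLo, hDi⟩ := hB0m _ _ hx0
      have hGt := fun κ (hκ : κ ∈ bx0 K₀) => hBkm κ hκ _ _ (hx1 κ hκ)
      have h1 := (hS1 1 J (fun y => if Sure p (II p (J - l * u) + b) (J - l * k) y then 0 else 1) x
        (fun y => by split_ifs <;> norm_num) (fun y => by split_ifs <;> norm_num)).2
      have h2 : ET q l k eb (omW q m g t₁ wm (l * k) G Jt) J 1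
          (fun y => if Sure p (II p (J - l * u) + b) (J - l * k) y then 0 else 1) x =
          ∑ S : Fin k → Fin l → Fin 3, (if (∀ i, typN eb (S i)) ∧
            ¬ Sure p (II p (J - l * u) + b) (J - l * k) (app x S) then
            piQ q l k eb (omW q m g t₁ wm (l * k) G Jt) J x S else 0) := by
        change ∑ S : Fin k → Fin l → Fin 3, _ = _
        refine sum_congr rfl fun S _ => ?_
        by_cases hs : ∀ i, typN eb (S i)
        · by_cases hs2 : Sure p (II p (J - l * u) + b) (J - l * k) (app x S)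
          · simp [hs, hs2, ET]
          · simp [hs, hs2, ET]
        · simp [hs]
      have hub := mem_Icc.1 hu
      have hbb := mem_Icc.1 hb
      have hp0 : (0 : ℝ) < p := by exact_mod_cast (by omega : 0 < p)
      have h3 : yy p (J - l * u) / (p : ℝ) ^ b ≤ c := by
        refine le_trans ?_ hc
        have h4 : yy p (J - l * u) ≤ 1 := yy_le1 p _ (by omega)
        have h5 : (p : ℝ) ^ hm ≤ (p : ℝ) ^ b :=
          pow_le_pow_right₀ (by exact_mod_cast (by omega : 1 ≤ p)) hbb.1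
        gcongr
      have h4 := hP q m g t₁ l k G Jt J p u b K₀ wm c Mj hpar hJ hJt (by omega) hub.2 h3 hK₀ hMj hM0
        hM1 x
      have h5 : ∑ κ ∈ bx0 K₀, ‖Mj κ‖ * Gt q m g t₁ l k wm J u κ (yy p (J - l * u) / (p : ℝ) ^ b)
          (x.1 * yy q J) (x.2 * yy q J) ≤ ∑ κ ∈ bx0 K₀, ‖Mj κ‖ * (3 * d') :=
        sum_le_sum fun κ hκ => mul_le_mul_of_nonneg_left (hGt κ hκ) (norm_nonneg _)
      have h6 : ∑ κ ∈ bx0 K₀, ‖Mj κ‖ * (3 * d') = 3 * d' * ∑ κ ∈ bx0 K₀, ‖Mj κ‖ := by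
        rw [← sum_mul]
        ring
      have h7 : (Mj 0).re * (1 + Di q m g t₁ l k wm J (x.1 * yy q J) (x.2 * yy q J)) ≤
          (Mj 0).re * (1 + del) := by
        gcongr
      rw [h2] at h1
      push_cast at h1
      linarith

end Pool.Agent.H24.FD
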